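import Pool.Agent.helper53.ORT.Spec

/-!
# Row CNO (project ort): centralisers of `Om B` modulo scalars
-/

set_option autoImplicit false

namespace Pool.Agent.ORT

open Module Pool.Agent.GS

theorem cno_two {F : Type} [Field F] (h : ringChar F ≠ 2) : (2 : F) ≠ 0 :=
  Ring.two_ne_zero h

/-- a nonzero vector orthogonal to four given vectors -/
theorem cno_four {F V : Type} [Field F] [AddCommGroup V] [Module F V] [FiniteDimensional F V]
    (B : LinearMap.BilinForm F V) (hn : 6 ≤ finrank F V) (x : Fin 4 → V) :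
    ∃ w : V, w ≠ 0 ∧ ∀ i, B w (x i) = 0 := by
  let f : V →ₗ[F] (Fin 4 → F) := LinearMap.pi fun i => B.flip (x i)
  have h : LinearMap.ker f ≠ ⊥ := by
    apply LinearMap.ker_ne_bot_of_finrank_lt
    rw [finrank_fin_fun]
    omega
  obtain ⟨w, hw, hw0⟩ := (Submodule.ne_bot_iff _).1 h
  refine ⟨w, hw0, fun i => ?_⟩
  have h1 : f w = 0 := hw
  have h2 := congrFun h1 i
  simpa [f] using h2

theorem cno_rfrf {F V : Type} [Field F] [AddCommGroup V] [Module F V]
    {B : LinearMap.BilinForm F V} (hB : Sym B) {a b : V} (ha : B a a ≠ 0) (hb : B b b ≠ 0)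
    (hab : B a b = 0) (v : V) :
    (rf B a * rf B b) v = v - (2 * B v b / B b b) • b - (2 * B v a / B a a) • a := by
  have hba : B b a = 0 := by rw [hB.symm, hab]
  rw [Equiv.Perm.mul_apply, rf_apply hb, rf_apply ha]
  simp only [map_sub, LinearMap.sub_apply, map_smul, LinearMap.smul_apply, smul_eq_mul, hba,
    mul_zero, sub_zero]

/-- step 1 -/
theorem cno_plane (ro : RO_stmt) {F V : Type} [Field F] [AddCommGroup V] [Module F V]
    [FiniteDimensional F V] (B : LinearMap.BilinForm F V) (hF : ringChar F ≠ 2) (hB : Sym B)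
    (hn : 6 ≤ finrank F V) (z : Equiv.Perm V) (hz : z ∈ SpG B)
    (hc : ∀ g ∈ Om B, ∃ c : F, ∀ v, (z * g * z⁻¹ * g⁻¹) v = c • v)
    (a b : V) (ha : B a a ≠ 0) (hb : B b b ≠ 0) (hab : B a b = 0)
    (hsq : IsSquare (B a a * B b b)) :
    z a = (B (z a) b / B b b) • b + (B (z a) a / B a a) • a := by
  have h2 : (2 : F) ≠ 0 := cno_two hF
  have hg := ro B hF hB a b ha hb hsq
  obtain ⟨c, hcc⟩ := hc _ hg
  have hza : B (z a) (z a) ≠ 0 := by rw [hz.2]; exact ha
  have hzb : B (z b) (z b) ≠ 0 := by rw [hz.2]; exact hb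
  have hzab : B (z a) (z b) = 0 := by rw [hz.2]; exact hab
  have hconj : z * (rf B a * rf B b) * z⁻¹ = rf B (z a) * rf B (z b) := by
    rw [← rf_conj_sp hz, ← rf_conj_sp hz]
    group
  have key : ∀ w, (rf B (z a) * rf B (z b)) w = c • (rf B a * rf B b) w := by
    intro w
    have h := hcc ((rf B a * rf B b) w)
    rw [Equiv.Perm.mul_apply, hconj, invp] at h
    exact h
  obtain ⟨w, hw0, hw⟩ := cno_four B hn ![a, b, z a, z b]
  have hwa : B w a = 0 := hw 0
  have hwb : B w b = 0 := hw 1
  have hwza : B w (z a) = 0 := hw 2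
  have hwzb : B w (z b) = 0 := hw 3
  have h1 := key w
  rw [cno_rfrf hB hza hzb hzab, cno_rfrf hB ha hb hab, hwa, hwb, hwza, hwzb] at h1
  simp only [mul_zero, zero_div, zero_smul, sub_zero] at h1
  have hc1 : c = 1 := by
    by_contra hne
    apply hw0
    have h3 : (1 - c) • w = 0 := by rw [sub_smul, one_smul, ← h1, sub_self]
    rcases smul_eq_zero.1 h3 with h4 | h4
    · exact absurd (sub_eq_zero.1 h4).symm hne
    · exact h4
  have h5 := key (z a)
  rw [hc1, one_smul, cno_rfrf hB hza hzb hzab, cno_rfrf hB ha hb hab, hzab] at h5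
  have h6 : (2 * B (z a) (z a) / B (z a) (z a)) = 2 := by
    field_simp
  rw [h6] at h5
  simp only [mul_zero, zero_div, zero_smul, sub_zero] at h5
  have h7 : (2 : F) • z a = (2 : F) • ((B (z a) b / B b b) • b + (B (z a) a / B a a) • a) := by
    rw [smul_add, smul_smul, smul_smul, ← mul_div_assoc, ← mul_div_assoc]
    have h8 : z a - (2 : F) • z a + ((2 * B (z a) b / B b b) • b + (2 * B (z a) a / B a a) • a)
        = z a := by
      rw [h5]
      abel
    have h9 : (2 * B (z a) b / B b b) • b + (2 * B (z a) a / B a a) • a =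
        z a - (z a - (2 : F) • z a) := by
      rw [eq_sub_iff_add_eq, add_comm]
      exact h8
    rw [h9]
    abel
  have h10 := congrArg (fun x => (2 : F)⁻¹ • x) h7
  simp only [smul_smul, inv_mul_cancel₀ h2, one_smul] at h10
  exact h10

/-- step 2 -/
theorem cno_eigen (ro : RO_stmt) (ug : URG_stmt) {F V : Type} [Field F] [Finite F]
    [AddCommGroup V] [Module F V]
    [FiniteDimensional F V] (B : LinearMap.BilinForm F V) (hF : ringChar F ≠ 2) (hB : Sym B)
    (hn : 6 ≤ finrank F V) (z : Equiv.Perm V) (hz : z ∈ SpG B)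
    (hc : ∀ g ∈ Om B, ∃ c : F, ∀ v, (z * g * z⁻¹ * g⁻¹) v = c • v)
    (a : V) (ha : B a a ≠ 0) : z a = (B (z a) a / B a a) • a := by
  have h1 : Og B ![a] := by
    refine ⟨fun i j hij => ?_, fun i => ?_⟩
    · exact absurd (Subsingleton.elim i j) hij
    · fin_cases i
      exact ha
  obtain ⟨b, hb1, -, hb2⟩ := ug B hF hB 1 0 ![a] ![] h1 (by omega) (B a a) ha
  have hba : B b a = 0 := hb1 0
  have hab : B a b = 0 := by rw [hB.symm, hba]
  have hbb : B b b ≠ 0 := by rw [hb2]; exact ha
  have h2 : Og B ![a, b] := by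
    refine ⟨fun i j hij => ?_, fun i => ?_⟩
    · fin_cases i <;> fin_cases j
      · exact absurd rfl hij
      · exact hab
      · exact hba
      · exact absurd rfl hij
    · fin_cases i
      · exact ha
      · exact hbb
  obtain ⟨e, he1, -, he2⟩ := ug B hF hB 2 0 ![a, b] ![] h2 (by omega) (B a a) ha
  have hea : B e a = 0 := he1 0
  have heb : B e b = 0 := he1 1
  have hae : B a e = 0 := by rw [hB.symm, hea]
  have hee : B e e ≠ 0 := by rw [he2]; exact ha
  have h3 := cno_plane ro B hF hB hn z hz hc a b ha hbb hab ⟨B a a, by rw [hb2]⟩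
  have h4 := cno_plane ro B hF hB hn z hz hc a e ha hee hae ⟨B a a, by rw [he2]⟩
  have h5 : B (z a) b = 0 := by
    rw [h4]
    simp only [map_add, LinearMap.add_apply, map_smul, LinearMap.smul_apply, smul_eq_mul, heb, hab,
      mul_zero, add_zero]
  rw [h5, zero_div, zero_smul, zero_add] at h3
  exact h3

theorem CNO (ro : RO_stmt) (ug : URG_stmt) (obs : OBS_stmt) : CNO_stmt := by
  intro F V _ _ _ _ _ B hF hB hn z hz hc
  have h2 : (2 : F) ≠ 0 := cno_two hF
  have hE := cno_eigen ro ug B hF hB hn z hz hc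
  -- comparison of eigenvalues, generic
  have hcmp : ∀ (a v : V) (α γ : F), B a a ≠ 0 → z v = γ • v → B v a = B a a →
      B (z v) a = α * B a a → γ = α := by
    intro a v α γ ha hv h1 h3
    rw [hv, map_smul, LinearMap.smul_apply, smul_eq_mul, h1] at h3
    exact mul_right_cancel₀ ha h3
  have hstep1 : ∀ a b : V, B a a ≠ 0 → B b b ≠ 0 → B a b = 0 → B a a + B b b ≠ 0 →
      B (z a) a / B a a = B (z b) b / B b b := by
    intro a b ha hb hab hs
    have hba : B b a = 0 := by rw [hB.symm, hab]
    have hv : B (a + b) (a + b) ≠ 0 := by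
      simp only [map_add, LinearMap.add_apply, hab, hba, add_zero, zero_add]
      exact hs
    have h3 := hE (a + b) hv
    have hza := hE a ha
    have hzb := hE b hb
    have h4 : z (a + b) = z a + z b := hz.1.1 a b
    have e1 := hcmp a (a + b) (B (z a) a / B a a) _ ha h3 (by
      simp only [map_add, LinearMap.add_apply, hba, add_zero]) (by
      rw [h4, map_add, LinearMap.add_apply, hzb, map_smul, LinearMap.smul_apply, hba, smul_zero,
        add_zero, div_mul_cancel₀ _ ha])
    have e2 := hcmp b (a + b) (B (z b) b / B b b) _ hb h3 (by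
      simp only [map_add, LinearMap.add_apply, hab, zero_add]) (by
      rw [h4, map_add, LinearMap.add_apply, hza, map_smul, LinearMap.smul_apply, hab, smul_zero,
        zero_add, div_mul_cancel₀ _ hb])
    rw [← e1, ← e2]
  have hstep : ∀ a b : V, B a a ≠ 0 → B b b ≠ 0 → B a b = 0 →
      B (z a) a / B a a = B (z b) b / B b b := by
    intro a b ha hb hab
    by_cases hs : B a a + B b b ≠ 0
    · exact hstep1 a b ha hb hab hs
    rw [not_not] at hs
    have hba : B b a = 0 := by rw [hB.symm, hab]
    have hO2 : Og B ![a, b] := by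
      refine ⟨fun i j hij => ?_, fun i => ?_⟩
      · fin_cases i <;> fin_cases j
        · exact absurd rfl hij
        · exact hab
        · exact hba
        · exact absurd rfl hij
      · fin_cases i
        · exact ha
        · exact hb
    obtain ⟨e, he1, -, he2⟩ := ug B hF hB 2 0 ![a, b] ![] hO2 (by omega) (B a a) ha
    have hea : B e a = 0 := he1 0
    have heb : B e b = 0 := he1 1
    have hae : B a e = 0 := by rw [hB.symm, hea]
    have hbe : B b e = 0 := by rw [hB.symm, heb]
    have hee : B e e ≠ 0 := by rw [he2]; exact ha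
    have hO3 : Og B ![a, b, e] := by
      refine ⟨fun i j hij => ?_, fun i => ?_⟩
      · fin_cases i <;> fin_cases j
        · exact absurd rfl hij
        · exact hab
        · exact hae
        · exact hba
        · exact absurd rfl hij
        · exact hbe
        · exact hea
        · exact heb
        · exact absurd rfl hij
      · fin_cases i
        · exact ha
        · exact hb
        · exact hee
    obtain ⟨f, hf1, -, hf2⟩ := ug B hF hB 3 0 ![a, b, e] ![] hO3 (by omega) (B a a) ha
    have hfa : B f a = 0 := hf1 0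
    have hfb : B f b = 0 := hf1 1
    have hfe : B f e = 0 := hf1 2
    have haf : B a f = 0 := by rw [hB.symm, hfa]
    have hbf : B b f = 0 := by rw [hB.symm, hfb]
    have hef : B e f = 0 := by rw [hB.symm, hfe]
    have hff : B f f ≠ 0 := by rw [hf2]; exact ha
    have hd : B a a + B a a ≠ 0 := by
      rw [← two_mul]
      exact mul_ne_zero h2 ha
    have e1 := hstep1 a e ha hee hae (by rw [he2]; exact hd)
    have e2 := hstep1 a f ha hff haf (by rw [hf2]; exact hd)
    have hv : B (e + f + b) (e + f + b) ≠ 0 := by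
      simp only [map_add, LinearMap.add_apply, hef, hfe, heb, hbe, hfb, hbf, add_zero, zero_add]
      rw [he2, hf2]
      have : B a a + B a a + B b b = B a a := by
        rw [add_assoc, hs, add_zero]
      rw [this]
      exact ha
    have h3 := hE (e + f + b) hv
    have hze := hE e hee
    have hzf := hE f hff
    have hzb := hE b hb
    have h4 : z (e + f + b) = z e + z f + z b := by rw [hz.1.1, hz.1.1]
    have e3 := hcmp e (e + f + b) (B (z e) e / B e e) _ hee h3 (by
      simp only [map_add, LinearMap.add_apply, hfe, hbe, add_zero]) (by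
      rw [h4, map_add, map_add, LinearMap.add_apply, LinearMap.add_apply, hzf, hzb, map_smul,
        map_smul, LinearMap.smul_apply, LinearMap.smul_apply, hfe, hbe, smul_zero, smul_zero,
        add_zero, add_zero, div_mul_cancel₀ _ hee])
    have e4 := hcmp b (e + f + b) (B (z b) b / B b b) _ hb h3 (by
      simp only [map_add, LinearMap.add_apply, heb, hfb, zero_add]) (by
      rw [h4, map_add, map_add, LinearMap.add_apply, LinearMap.add_apply, hze, hzf, map_smul,
        map_smul, LinearMap.smul_apply, LinearMap.smul_apply, heb, hfb, smul_zero, smul_zero,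
        zero_add, zero_add, div_mul_cancel₀ _ hb])
    rw [e1, ← e3, ← e4]
  obtain ⟨a, ha, hspan⟩ := obs B hF hB ⊤ (fun x _ hx => hB.nd x fun y => hx y Submodule.mem_top)
  have hpos : 0 < finrank F (⊤ : Submodule F V) := by
    rw [finrank_top]
    omega
  let i0 : Fin (finrank F (⊤ : Submodule F V)) := ⟨0, hpos⟩
  refine ⟨B (z (a i0)) (a i0) / B (a i0) (a i0), fun v => ?_⟩
  have hv : v ∈ Submodule.span F (Set.range a) := by
    rw [hspan]
    exact Submodule.mem_top
  induction hv using Submodule.span_induction with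
  | mem x hx =>
    obtain ⟨i, rfl⟩ := hx
    rcases eq_or_ne i i0 with rfl | hi
    · exact hE _ (ha.n _)
    · rw [← hstep (a i) (a i0) (ha.n _) (ha.n _) (ha.o _ _ hi)]
      exact hE _ (ha.n _)
  | zero =>
    rw [smul_zero]
    have h := hz.1.2 0 0
    rwa [zero_smul, zero_smul] at h
  | add x y _ _ hx hy =>
    rw [hz.1.1, hx, hy, smul_add]
  | smul c x _ hx =>
    rw [hz.1.2, hx, smul_comm]

end Pool.Agent.ORT
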